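import Pool.Agent.H445.MT.Bd

/-!
# MP_57341d_ag: the transcendence degree of the periods of products of elliptic curves, and the dimension of the exceptional sets over larger fields

For a point `τ` of the upper half-plane let `E_τ` be the elliptic curve `ℂ / (ℤ + ℤ τ)`. Let `r`, `n`, `e`, `m` be natural
numbers and let `T(r,n,e,m)` be the set of all `τ = (τ_1, …, τ_n)` in `ℍ^n` such that

* the motive `M = h(E_{τ_1}) ⊕ ⋯ ⊕ h(E_{τ_n})` can be defined over a field of transcendence degree at most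
  `r`: `trdeg ℚ(j(τ_1), …, j(τ_n)) ≤ r`, and
* its periods satisfy `trdeg ℚ(2πi, τ_i, η₁(τ_i), g₂(τ_i), g₃(τ_i)) ≤ 1 + 3 a + b + e - m`,

where `a` and `b` are the numbers of the isogeny classes of the curves without and with complex multiplication, so
that `1 + 3 a + b = dim MT(M)`. For `r = 0` these are the curves over `ℚ̄`, and the transcendence degree is the one of
the field of periods of `M`: Grothendieck's conjecture for `M` says that it is `dim MT(M)`. (For `r > 0` the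
numbers generate the field of the periods of the model `y² = 4 x³ - g₂ x - g₃` over `ℚ(g₂(τ_i), g₃(τ_i))`; the
transcendence degree is at most `dim MT(M) + r` if the one of the `j(τ_i)` is at most `r`, and the generalisation of
the conjecture by André says that it is at least `dim MT(M)`: `T(r,n,0,m)` is empty for `m ≥ 1`.)

Let `PeriodBound n m` be Grothendieck's inequality with an error `m` for all these motives over `ℚ̄`: if
`L_1, …, L_n` are lattices with algebraic invariants `g₂`, `g₃`, then the transcendence degree of their periods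
and quasi-periods (and `2πi`) is at least `dim MT(M) - m`. We prove:

* The Hausdorff dimension of `T(r,n,e,m)` is exactly `2 d`, where `d ≤ min(r,n)` is the largest number for which
  `T(r - d, n - d, e, m + d)` is not empty (`0` if there is none), and then `m + 4 d ≤ 3 n + e`.
* `T(r,n,e,m)` is countable if and only if `T(r - 1, n - 1, e, m + 1)` is empty, or `r = 0`, or `n = 0`.
* `T(r,n,e,m + d + 1)` is empty if and only if the dimension of `T(r + d + 1, n + d + 1, e, m)` is at most `2 d`.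
* `PeriodBound n m` holds if and only if the set `T(d + 1, n + d + 1, d, m)` has dimension at most `2 d`, for any
  `d`; for `m = 0` this dimension is then exactly `2 d`, and it is `2 (d + 1)` if `PeriodBound n 0` does not hold. In
  other words: Grothendieck's conjecture holds for all products of `n` elliptic curves over `ℚ̄` if and only if the
  set of the `τ` in `ℍ^{n + r}` with `trdeg ℚ(j(τ_i)) ≤ r` and with periods of transcendence degree less than
  `dim MT(M) + r` has dimension `2 (r - 1)` (for one `r ≥ 1`, or for all `r ≥ 1`); if not, the dimension is `2 r`.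
* `PeriodBound n (m + d)` holds if and only if the dimension of `T(d + 1, n + d + 1, 0, m)` is at most `2 d`, and
  `PeriodBound n m` holds if and only if `T(1, n + 1, 0, m)` is countable.

In particular (`m = 0`) the conjecture holds for all products of `n` elliptic curves over `ℚ̄` if and only
if for all but countably many of the products of `n + 1` elliptic curves over fields of transcendence degree at most
one the periods have transcendence degree at least `2 + 3 a + b`.

## The proof (in `Pool.Agent.H445.MJ`, `Pool.Agent.H445.MX`, `Pool.Agent.H445.MT`)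

The main tool is a proof of an Ax-Schanuel theorem for `j` and its derivatives (or the periods and
quasi-periods) in a pointwise form, for a space of derivations of `ℂ` (`rank_tau`, `chainX`). For a field `K` which is
countable and closed under the functions and their differential equations, a point with a space of compatible
directions of dimension `δ` has a part in `K` for which the defect is larger by `δ` (`reduceT`). The compatible
derivations are determined by their values at the invariants `j(τ_i)`; so the transcendence degree of the field of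
definition of this part is smaller by `δ` (`type_le`).
-/

set_option autoImplicit false

open Set

noncomputable section

namespace Pool.Agent.Results.MP_57341d_ag.DimensionByFieldOfDefinition

open Pool.Agent.H445.MX (BaseX BadX cntC oC)
open Pool.Agent.H445.MT
open Pool.Agent.H445.MJ (oN trdeg_iff CMp LC_eq)
open Pool.Agent.H445 (dimQ dimQ_le)

/-- The lattice `ℤ + ℤ τ`. -/
def lattice (τ : ℂ) (h : 0 < τ.im) : PeriodPair where
  ω₁ := 1
  ω₂ := τ
  indep := (Pool.Agent.Y685.LL ⟨τ, h⟩).indep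

/-- The Weierstrass zeta function (the summand of `l = 0` is `1 / z`). -/
def zeta (L : PeriodPair) (z : ℂ) : ℂ := ∑' l : L.lattice, (1 / (z - l) + 1 / l + z / l ^ 2)

/-- The quasi-period `ζ(z + l) - ζ(z)` of the period `l` (it does not depend on `z`; we take `z = ω₁/2`). -/
def quasiPeriod (L : PeriodPair) (l : ℂ) : ℂ := zeta L (L.ω₁ / 2 + l) - zeta L (L.ω₁ / 2)

/-- The invariant `g₂` of the lattice `ℤ + ℤ τ`. -/
def g₂ (τ : ℂ) : ℂ := if h : 0 < τ.im then (lattice τ h).g₂ else 0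

/-- The invariant `g₃` of the lattice `ℤ + ℤ τ`. -/
def g₃ (τ : ℂ) : ℂ := if h : 0 < τ.im then (lattice τ h).g₃ else 0

/-- The quasi-period of the period `1` of the lattice `ℤ + ℤ τ`. -/
def η₁ (τ : ℂ) : ℂ := if h : 0 < τ.im then quasiPeriod (lattice τ h) 1 else 0

/-- The modular invariant. -/
def j (τ : ℂ) : ℂ := 1728 * g₂ τ ^ 3 / (g₂ τ ^ 3 - 27 * g₃ τ ^ 2)

/-- The modular invariants of the curves. -/
def invariants {n : ℕ} (τ : Fin n → ℂ) : Set ℂ := {x | ∃ i, x = j (τ i)}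

/-- The numbers `2πi`, `τ_i`, `η₁(τ_i)`, `g₂(τ_i)`, `g₃(τ_i)`. -/
def numbers {n : ℕ} (τ : Fin n → ℂ) : Set ℂ :=
  {2 * (Real.pi : ℂ) * Complex.I} ∪ {x | ∃ i, x = τ i ∨ x = η₁ (τ i) ∨ x = g₂ (τ i) ∨ x = g₃ (τ i)}

/-- The curve `E_τ` has complex multiplication: `τ` is quadratic. -/
def HasCM (τ : ℂ) : Prop :=
  ∃ a b c : ℤ, (a ≠ 0 ∨ b ≠ 0 ∨ c ≠ 0) ∧ (a : ℂ) * τ ^ 2 + (b : ℂ) * τ + (c : ℂ) = 0

/-- The points `σ` of the upper half-plane for which `E_σ` is isogenous to `E_τ`. -/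
def isogenyClass (τ : ℂ) : Set ℂ :=
  {σ | 0 < σ.im ∧ ∃ a b c d : ℚ, 0 < a * d - b * c ∧ σ * ((c : ℂ) * τ + (d : ℂ)) = (a : ℂ) * τ + (b : ℂ)}

/-- The number of the isogeny classes of the curves without complex multiplication. -/
def a {n : ℕ} (τ : Fin n → ℂ) : ℕ := {O | ∃ i, ¬ HasCM (τ i) ∧ O = isogenyClass (τ i)}.ncard

/-- The number of the isogeny classes of the curves with complex multiplication. -/
def b {n : ℕ} (τ : Fin n → ℂ) : ℕ := {O | ∃ i, HasCM (τ i) ∧ O = isogenyClass (τ i)}.ncard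

/-- `T(r,n,e,m)`: all `τ` in `ℍ^n` with `trdeg ℚ(j(τ_i)) ≤ r` and `trdeg ℚ(numbers) + m ≤ 1 + 3 a + b + e`. -/
def T (r n e m : ℕ) : Set (Fin n → ℂ) :=
  {τ | (∀ i, 0 < (τ i).im) ∧ Algebra.trdeg ℚ (IntermediateField.adjoin ℚ (invariants τ)) ≤ (r : Cardinal) ∧
    Algebra.trdeg ℚ (IntermediateField.adjoin ℚ (numbers τ)) + m ≤ ((1 + 3 * a τ + b τ + e : ℕ) : Cardinal)}

/-- The largest `d ≤ min(r,n)` such that `T(r - d, n - d, e, m + d)` is not empty (zero if there is none). -/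
def level (r n e m : ℕ) : ℕ := sSup {d | d ≤ r ∧ d ≤ n ∧ (T (r - d) (n - d) e (m + d)).Nonempty}

/-- The periods and quasi-periods of the lattices `L_i` and `2πi`. -/
def periods {n : ℕ} (L : Fin n → PeriodPair) : Set ℂ :=
  {2 * (Real.pi : ℂ) * Complex.I} ∪ {x | ∃ i, x = (L i).ω₁ ∨ x = (L i).ω₂ ∨
    x = quasiPeriod (L i) (L i).ω₁ ∨ x = quasiPeriod (L i) (L i).ω₂}

/-- Grothendieck's inequality with the error `m` for all products of `n` elliptic curves over `ℚ̄` (the curves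
`y² = 4 x³ - g₂ x - g₃` with algebraic `g₂`, `g₃`; the bases of the lattices are oriented). -/
def PeriodBound (n m : ℕ) : Prop :=
  ∀ L : Fin n → PeriodPair, (∀ i, 0 < ((L i).ω₂ / (L i).ω₁).im) →
    (∀ i, IsAlgebraic ℚ (L i).g₂ ∧ IsAlgebraic ℚ (L i).g₃) →
    ((1 + 3 * a (fun i => (L i).ω₂ / (L i).ω₁) + b (fun i => (L i).ω₂ / (L i).ω₁) : ℕ) : Cardinal) ≤
      Algebra.trdeg ℚ (IntermediateField.adjoin ℚ (periods L)) + m

/-- the base -/
abbrev P0 : Set ℂ := {2 * (Real.pi : ℂ) * Complex.I}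

/-- the periods -/
abbrev B0 : Submodule ℚ ℂ := Submodule.span ℚ {2 * (Real.pi : ℂ) * Complex.I}

theorem base : BaseX P0 B0 :=
  ⟨Set.finite_singleton _, FiniteDimensional.span_of_finite ℚ (Set.finite_singleton _)⟩

theorem hP0 : 2 * (Real.pi : ℂ) * Complex.I ∈ P0 := rfl

theorem lat_eq {τ : ℂ} (h : 0 < τ.im) : Pool.Agent.Y685.LC τ = lattice τ h := LC_eq h rfl rfl

theorem g₂_eq {τ : ℂ} (h : 0 < τ.im) : g₂ τ = (Pool.Agent.Y685.LC τ).g₂ := by
  rw [g₂, dif_pos h, lat_eq h]

theorem g₃_eq {τ : ℂ} (h : 0 < τ.im) : g₃ τ = (Pool.Agent.Y685.LC τ).g₃ := by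
  rw [g₃, dif_pos h, lat_eq h]

theorem η₁_eq {τ : ℂ} (h : 0 < τ.im) : η₁ τ = Pool.Agent.Y685.h1 τ := by
  rw [η₁, dif_pos h, Pool.Agent.Y685.h1, lat_eq h]
  rfl

theorem j_eq {τ : ℂ} (h : 0 < τ.im) : j τ = Pool.Agent.Y776.jf τ := by
  rw [j, g₂_eq h, g₃_eq h]
  rfl

theorem numbers_eq {n : ℕ} {τ : Fin n → ℂ} (hτ : ∀ i, 0 < (τ i).im) (w : Fin 0 → ℂ) :
    numbers τ = P0 ∪ (Pool.Agent.H445.MJ.NS (range τ) ∪ Pool.Agent.Y776.ET w) := by
  unfold numbers
  congr 1
  have e : Pool.Agent.Y776.ET w = ∅ := by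
    ext x
    constructor
    · rintro (⟨i, -⟩ | ⟨i, -⟩) <;> exact i.elim0
    · exact fun h => h.elim
  rw [e, union_empty]
  ext x
  simp only [Pool.Agent.H445.MJ.NS, Pool.Agent.H445.MJ.N1, mem_ofPred_eq, mem_iUnion, mem_range, exists_prop,
    exists_exists_eq_and, mem_insert_iff, mem_singleton_iff]
  exact exists_congr fun i => by rw [g₂_eq (hτ i), g₃_eq (hτ i), η₁_eq (hτ i)]

theorem invariants_eq {n : ℕ} {τ : Fin n → ℂ} (hτ : ∀ i, 0 < (τ i).im) (w : Fin 0 → ℂ) :
    invariants τ = TY (range τ) w := by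
  ext x
  constructor
  · rintro ⟨i, rfl⟩
    rw [j_eq (hτ i)]
    exact Or.inl ⟨_, ⟨i, rfl⟩, rfl⟩
  · rintro (⟨_, ⟨i, rfl⟩, rfl⟩ | ⟨i, -⟩)
    · exact ⟨i, (j_eq (hτ i)).symm⟩
    · exact i.elim0

theorem a_eq {n : ℕ} (z : Fin n → ℂ) : a z = (oN (range z)).ncard := by
  unfold a oN
  congr 1
  ext O
  constructor
  · rintro ⟨i, h, rfl⟩
    exact ⟨z i, ⟨⟨i, rfl⟩, h⟩, rfl⟩
  · rintro ⟨_, ⟨⟨i, rfl⟩, h⟩, rfl⟩
    exact ⟨i, h, rfl⟩

theorem b_eq {n : ℕ} (z : Fin n → ℂ) : b z = (oC (range z)).ncard := by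
  unfold b oC
  congr 1
  ext O
  constructor
  · rintro ⟨i, h, rfl⟩
    exact ⟨z i, ⟨⟨i, rfl⟩, h⟩, rfl⟩
  · rintro ⟨_, ⟨⟨i, rfl⟩, h⟩, rfl⟩
    exact ⟨i, h, rfl⟩

theorem mem_T {r n e m : ℕ} {z : Fin n → ℂ} (w : Fin 0 → ℂ) :
    z ∈ T r n e m ↔ BadT P0 B0 (1 + e) m r (range z) w := by
  have hd : dimQ B0 w = 0 := Nat.le_zero.1 (dimQ_le B0 w)
  have key : 1 + 3 * a z + b z + e = cntC (range z) + dimQ B0 w + (1 + e) := by
    rw [cntC, ← a_eq, ← b_eq, hd]
    omega
  constructor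
  · rintro ⟨h1, h2, h3⟩
    refine ⟨⟨finite_range z, ?_, ?_⟩, ?_⟩
    · rintro _ ⟨i, rfl⟩
      exact h1 i
    · have h4 := (trdeg_iff m (1 + 3 * a z + b z + e)).1 h3
      rw [key] at h4
      rwa [numbers_eq h1 w] at h4
    · have h4 := (trdeg_iff 0 r).1 (by simpa using h2)
      rw [invariants_eq h1 w] at h4
      simpa using h4
  · rintro ⟨⟨-, h1, h2⟩, h3⟩
    have h1' : ∀ i, 0 < (z i).im := fun i => h1 _ ⟨i, rfl⟩
    refine ⟨h1', ?_, ?_⟩
    · have h4 := (trdeg_iff (S := TY (range z) w) 0 r).2 (by simpa using h3)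
      rw [← invariants_eq h1' w] at h4
      simpa using h4
    · refine (trdeg_iff m (1 + 3 * a z + b z + e)).2 ?_
      rw [key, numbers_eq h1' w]
      exact h2

theorem T_eq (r n e m : ℕ) : T r n e m = VT P0 B0 (1 + e) n 0 m r := by
  ext z
  exact mem_T (fun i => z (Fin.natAdd n i))

theorem T_shift (r n e m d : ℕ) : T r n (e + d) (m + d) = T r n e m := by
  rw [T_eq, T_eq, ← add_assoc]
  exact VT_shift

theorem Lev_eq (r n e m : ℕ) : LevT P0 B0 (1 + e) n 0 m r =
    {d | d ≤ r ∧ d ≤ n ∧ (T (r - d) (n - d) e (m + d)).Nonempty} := by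
  ext d
  simp only [T_eq]
  constructor
  · rintro ⟨h1, i, k, hi, hk, hik, h⟩
    have hk0 : k = 0 := by omega
    subst hk0
    have hi0 : i = d := by omega
    subst hi0
    exact ⟨h1, hi, h⟩
  · rintro ⟨h1, h2, h⟩
    exact ⟨h1, d, 0, h2, le_rfl, by omega, h⟩

theorem dim_eq (r n e m : ℕ) : dimH (T r n e m) = (2 * level r n e m : ℕ) := by
  rw [level, ← Lev_eq]
  rw [T_eq]
  exact dimVT base hP0

theorem bound {r n e m : ℕ} (h : (T r n e m).Nonempty) : m ≤ 3 * n + e := by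
  rw [T_eq] at h
  exact VT_bound' hP0 h

theorem countable_iff (r n e m : ℕ) : (T r n e m).Countable ↔
    (1 ≤ r → 1 ≤ n → T (r - 1) (n - 1) e (m + 1) = ∅) := by
  rw [show (T r n e m).Countable ↔ (VT P0 B0 (1 + e) n 0 m r).Countable by rw [T_eq],
    countableVT base hP0, Lev_eq]
  constructor
  · intro h h1 h2
    by_contra hne
    exact h ⟨h1, h2, nonempty_iff_ne_empty.2 hne⟩
  · rintro h ⟨h1, h2, h3⟩
    rw [h h1 h2] at h3
    exact not_nonempty_empty h3

theorem empty_iff (r n e m d : ℕ) : T r n e (m + d + 1) = ∅ ↔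
    dimH (T (r + d + 1) (n + d + 1) e m) ≤ (2 * d : ℕ) := by
  have hmem : d + 1 ∈ {f | f ≤ r + d + 1 ∧ f ≤ n + d + 1 ∧
      (T (r + d + 1 - f) (n + d + 1 - f) e (m + f)).Nonempty} ↔ (T r n e (m + d + 1)).Nonempty := by
    rw [mem_ofPred_eq]
    have e1 : r + d + 1 - (d + 1) = r := by omega
    have e2 : n + d + 1 - (d + 1) = n := by omega
    rw [e1, e2, ← add_assoc]
    exact ⟨fun h => h.2.2, fun h => ⟨by omega, by omega, h⟩⟩
  rw [← not_iff_not, ← Ne, ← nonempty_iff_ne_empty, ← hmem, dim_eq, not_le]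
  have hlt : ((2 * d : ℕ) : ENNReal) < ((2 * level (r + d + 1) (n + d + 1) e m : ℕ) : ENNReal) ↔
      d + 1 ≤ level (r + d + 1) (n + d + 1) e m := by
    rw [Nat.cast_lt]
    omega
  rw [hlt, level, ← Lev_eq]
  constructor
  · intro h
    exact le_csSup LevT_bdd h
  · intro h
    rcases Set.eq_empty_or_nonempty (LevT P0 B0 (1 + e) (n + d + 1) 0 m (r + d + 1)) with h0 | h0
    · rw [h0, csSup_empty, bot_eq_zero] at h
      omega
    · exact LevT_down hP0 h (Nat.sSup_mem h0 LevT_bdd)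

theorem level_le (r n e m : ℕ) : level r n e m ≤ r := by
  rcases Set.eq_empty_or_nonempty {d | d ≤ r ∧ d ≤ n ∧ (T (r - d) (n - d) e (m + d)).Nonempty} with h | h
  · rw [level, h, csSup_empty]
    exact Nat.zero_le _
  · exact (Nat.sSup_mem h ⟨r, fun _ h => h.1⟩).1

/-- the dimension without an error -/
theorem sharp (n d : ℕ) : d ≤ level (d + 1) (n + d + 1) d 0 := by
  refine le_csSup ⟨d + 1, fun _ h => h.1⟩ ⟨Nat.le_succ d, by omega, ?_⟩
  rw [T_eq, show 1 + d = 1 + 0 + d from by omega, VT_shift]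
  exact VT_zero rfl _ _ _ _

theorem periods_eq {n : ℕ} (L : Fin n → PeriodPair) : periods L = PrS L := by
  unfold periods PrS
  congr 1
  ext x
  simp only [Pr, mem_iUnion, mem_insert_iff, mem_singleton_iff]
  exact Iff.rfl

theorem bound_iff (n m : ℕ) : PeriodBound n m ↔ T 0 n 0 (m + 1) = ∅ := by
  have hlt : ∀ (S : Set ℂ) (N : ℕ), ¬ ((N : Cardinal) ≤ Algebra.trdeg ℚ (IntermediateField.adjoin ℚ S) + m) ↔
      (Pool.Agent.TH813.Rel.MK (⊥ : IntermediateField ℚ ℂ)).eRk S + ((m + 1 : ℕ) : ℕ∞) ≤ (N : ℕ∞) := by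
    intro S N
    rw [← trdeg_iff (S := S) (m + 1) N, not_le]
    constructor
    · intro h
      have h1 : Algebra.trdeg ℚ (IntermediateField.adjoin ℚ S) < Cardinal.aleph0 :=
        (self_le_add_right _ _).trans_lt (h.trans (Cardinal.natCast_lt_aleph0))
      obtain ⟨k, hk⟩ := Cardinal.lt_aleph0.1 h1
      rw [hk] at h ⊢
      have h2 : k + m < N := by exact_mod_cast h
      exact_mod_cast (by omega : k + (m + 1) ≤ N)
    · intro h
      have h1 : Algebra.trdeg ℚ (IntermediateField.adjoin ℚ S) < Cardinal.aleph0 :=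
        (self_le_add_right _ _).trans_lt (h.trans_lt (Cardinal.natCast_lt_aleph0))
      obtain ⟨k, hk⟩ := Cardinal.lt_aleph0.1 h1
      rw [hk] at h ⊢
      have h2 : k + (m + 1) ≤ N := by exact_mod_cast h
      exact_mod_cast (by omega : k + m < N)
  have e0 : ∀ z : Fin n → ℂ, P0 ∪ (Pool.Agent.H445.MJ.NS (range z) ∪ Pool.Agent.Y776.ET (fun i : Fin 0 => (i.elim0 : ℂ))) =
      {tpi} ∪ Pool.Agent.H445.MJ.NS (range z) := by
    intro z
    have e : Pool.Agent.Y776.ET (fun i : Fin 0 => (i.elim0 : ℂ)) = ∅ := by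
      ext x
      constructor
      · rintro (⟨i, -⟩ | ⟨i, -⟩) <;> exact i.elim0
      · exact fun h => h.elim
    rw [e, union_empty]
  have hd : dimQ B0 (fun i : Fin 0 => (i.elim0 : ℂ)) = 0 := Nat.le_zero.1 (dimQ_le B0 _)
  constructor
  · intro h
    rw [eq_empty_iff_forall_notMem]
    intro z hz
    have h1 := (mem_T (fun i : Fin 0 => (i.elim0 : ℂ))).1 hz
    have hj := ty_zero_iff.1 h1.ty
    have him : ∀ i, 0 < (z i).im := fun i => h1.bad.im _ ⟨i, rfl⟩
    obtain ⟨L, hL1, hL2, hL3⟩ := exists_models him hj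
    have hz' : (fun i => (L i).ω₂ / (L i).ω₁) = z := funext hL1
    have h2 := h L (fun i => by rw [hL1 i]; exact him i) hL2
    rw [hz'] at h2
    have h3 := h1.bad.rk
    rw [e0, hd, cntC, ← a_eq, ← b_eq] at h3
    refine (hlt (periods L) (1 + 3 * a z + b z)).2 ?_ h2
    rw [periods_eq]
    refine (add_le_add hL3 le_rfl).trans (h3.trans ?_)
    exact_mod_cast (by omega : 3 * a z + b z + 0 + (1 + 0) ≤ 1 + 3 * a z + b z)
  · intro h L hL1 hL2
    by_contra hcon
    rw [hlt, periods_eq] at hcon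
    set z : Fin n → ℂ := fun i => (L i).ω₂ / (L i).ω₁ with hz
    have h1 : z ∈ T 0 n 0 (m + 1) := by
      rw [mem_T (fun i : Fin 0 => (i.elim0 : ℂ))]
      refine ⟨⟨finite_range z, ?_, ?_⟩, ?_⟩
      · rintro _ ⟨i, rfl⟩
        exact hL1 i
      · rw [e0, hd, cntC, ← a_eq, ← b_eq]
        refine (add_le_add (rk_of_models hL1 hL2) le_rfl).trans (hcon.trans ?_)
        exact_mod_cast (by omega : 1 + 3 * a z + b z ≤ 3 * a z + b z + 0 + (1 + 0))
      · exact ty_zero_iff.2 fun i => jf_alg (hL1 i) (hL2 i).1 (hL2 i).2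
    rw [h] at h1
    exact h1

theorem result :
    -- the dimension of the exceptional sets
    (∀ r n e m : ℕ, dimH (T r n e m) = (2 * level r n e m : ℕ)) ∧
    (∀ r n e m d : ℕ, d ≤ r → d ≤ n → (T (r - d) (n - d) e (m + d)).Nonempty → m + 4 * d ≤ 3 * n + e) ∧
    -- countability
    (∀ r n e m : ℕ, (T r n e m).Countable ↔ (1 ≤ r → 1 ≤ n → T (r - 1) (n - 1) e (m + 1) = ∅)) ∧
    -- the inequality over fields of any transcendence degree
    (∀ r n e m d : ℕ, T r n e (m + d + 1) = ∅ ↔ dimH (T (r + d + 1) (n + d + 1) e m) ≤ (2 * d : ℕ)) ∧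
    (∀ r n e m : ℕ, T r n e (m + 1) = ∅ ↔ (T (r + 1) (n + 1) e m).Countable) ∧
    -- Grothendieck's inequality for products of `n` elliptic curves over `ℚ̄`
    (∀ n m d : ℕ, PeriodBound n m ↔ dimH (T (d + 1) (n + d + 1) d m) ≤ (2 * d : ℕ)) ∧
    (∀ n d : ℕ, PeriodBound n 0 ↔ dimH (T (d + 1) (n + d + 1) d 0) = (2 * d : ℕ)) ∧
    (∀ n d : ℕ, ¬ PeriodBound n 0 ↔ dimH (T (d + 1) (n + d + 1) d 0) = (2 * (d + 1) : ℕ)) ∧
    (∀ n m d : ℕ, PeriodBound n (m + d) ↔ dimH (T (d + 1) (n + d + 1) 0 m) ≤ (2 * d : ℕ)) ∧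
    (∀ n m : ℕ, PeriodBound n m ↔ (T 1 (n + 1) 0 m).Countable) := by
  have hc : ∀ r n e m : ℕ, T r n e (m + 1) = ∅ ↔ (T (r + 1) (n + 1) e m).Countable := by
    intro r n e m
    rw [countable_iff]
    simp
  have hb : ∀ n m d : ℕ, PeriodBound n m ↔ dimH (T (d + 1) (n + d + 1) d m) ≤ (2 * d : ℕ) := by
    intro n m d
    have h1 := empty_iff 0 n d m d
    rw [zero_add] at h1
    rw [← h1, bound_iff]
    have h2 := T_shift 0 n 0 (m + 1) d
    rw [zero_add] at h2
    rw [show m + d + 1 = m + 1 + d from by omega, h2]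
  have hcast : ∀ x y : ℕ, ((2 * x : ℕ) : ENNReal) = ((2 * y : ℕ) : ENNReal) ↔ x = y := by
    intro x y
    rw [Nat.cast_inj]
    omega
  have hcast' : ∀ x y : ℕ, ((2 * x : ℕ) : ENNReal) ≤ ((2 * y : ℕ) : ENNReal) ↔ x ≤ y := by
    intro x y
    rw [Nat.cast_le]
    omega
  refine ⟨dim_eq, fun r n e m d h1 h2 h => ?_, countable_iff, empty_iff, hc, hb, fun n d => ?_, fun n d => ?_,
    fun n m d => ?_, fun n m => ?_⟩
  · have := bound h
    omega
  · rw [hb n 0 d, dim_eq, hcast, hcast']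
    have h1 := sharp n d
    omega
  · rw [hb n 0 d, dim_eq, hcast, hcast']
    have h1 := sharp n d
    have h2 := level_le (d + 1) (n + d + 1) d 0
    omega
  · rw [bound_iff, empty_iff, zero_add]
  · rw [bound_iff, hc, zero_add]

end Pool.Agent.Results.MP_57341d_ag.DimensionByFieldOfDefinition
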