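import Mathlib
import Pool.Agent.H298.Core.TorsorWeil
import Pool.Agent.H298.Core.Main
import Pool.Agent.H298.Core.DoubleFactMain

/-!
# The period torsors of motives of CM type: fields with irreducible odd part or primitive core

Let `A` be an abelian variety over `ℚ̄` and let `M` be any André motive over `ℚ̄` in the tensor
category generated by `h^1(A)` and the Tate motives. Let `P` be the matrix of the periods of `M`,
and let `G ⊆ GL(H_B(M))` be *any* algebraic group over `ℚ` such that the comparison isomorphism of
`M` is a point of a torsor of `G` defined over `ℚ̄`: `P T ∈ G(ℂ)` for some matrix `T` with algebraic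
entries. By theorems of Deligne and André the motivic Galois group of `M` is its Mumford-Tate group
`MT(M)`, and `P` is a point of a torsor of `MT(M)`. The conjecture says that `P` is a generic point
of this torsor (`MT(M)` is connected); in particular it predicts that every such `G` contains
`MT(M)`. (This is `Ω_M = Ω_M^{And}`. The prediction for all motives in the tensor category of `M` is
equivalent to: all de Rham-Betti classes in the tensor constructions of `M` are Hodge classes.) We
prove this prediction for all `M` and the following abelian varieties `A` with complex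
multiplication, of all dimensions. **Nothing is assumed about periods or Hodge classes**: `AbVar` is
the description of an abelian variety over `ℚ̄` by theta functions (see `Y102/AVDefs.lean` in the
library, where it is explained why every abelian variety has it), and the theorems of Schneider-Lang
and of Bost are proved in the library. The group `G` is not assumed to be reductive.

**Cores.** Let `E` be a CM field of degree `2 g`, `X` the set of its complex embeddings. The
automorphisms of `ℂ` which map all elements of `X` to themselves or to their complex conjugates are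
called sign changes. The first core of `φ : X` consists of the `ψ : X` which are moved by the same
sign changes as `φ`. If one uses all automorphisms which map the elements of the first core to
themselves or to their conjugates, one obtains the second core, inside of the first one, and so on
(`coreOf`). The cores of the same index have the same number `2 c` of elements, and `c` divides `g`
(`c = g` is possible). A core is primitive (`PrimitiveCore`) if `c` is a prime number, or if `c = [E
: F]` for a subfield `F`, not totally real, such that the automorphisms of `ℂ` act doubly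
transitively on the extensions to `E` of an embedding of `F`. If `c = 1` then the odd rational
functions on `X` are an irreducible representation of the automorphisms of `ℂ` (`OddIrreducible`).
Part three of the theorem (`AllFacts`) contains criteria. Let `2 ^ v` be the degree of the Galois
closure of `E` over the Galois closure of its maximal real subfield `E₀` (typically `v = g`). Then
there is a core with `c ≤ g / v` pairs. **If `v > g / 3` then the odd part of `E` is irreducible or
there is a core with two pairs; if the Galois group
of `E₀` is doubly transitive, and `g` is odd, or `g - 1` is a prime number, or at least `g` is none of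
the numbers `10, 16, 26, 28, 36, …` (`TwoGraphDegree`), or if it is triply transitive and `g ≥ 3`
(for example the symmetric group, or the alternating group if `g ≥ 5`), and `E` contains no imaginary
quadratic field, then the odd part of `E` is irreducible.** If `v > g / 4`, or if `v > 1` and `g` is
the product of two prime numbers, or generally if `E` has few divisors (`FewDivisors`, a condition
on `g`, `v` and the discriminants) then there is a core with `c = 1` or `c` prime.

**The type IV part** (`TypeIVPart`, `HasFields`). The algebra of the endomorphisms of `A` which are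
central and skew-symmetric for the polarization is generated by one of them, `Y`; its minimal
polynomial is (up to the factor `T`, if there are factors which are not of type IV) the product of
the minimal polynomials `p i` of generators `y i` of CM fields `E i`. On the image of `Y` the
endomorphisms of `H_1(A, ℚ)` which commute with all endomorphisms of `A` commute with each other:
the simple factors of type IV have complex multiplication (the other factors are arbitrary). For
every `i` some automorphism of `ℂ` conjugates all embeddings of `E i` and fixes all embeddings of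
the `E j`, `j ≠ i` (no condition if there is only one field).

**Theorem, part one.** Let the simple factors of type IV of `A` have complex multiplication by such
fields `E i`, and let `Z = h(Y)` be a central endomorphism, `h` an odd polynomial, such that for
each `i` (`TraceCondition`) the odd part of `E i` is irreducible, or `E i` has a primitive core with
`c` pairs, and `c = 2` or the traces of `h(y i)` to all subfields `F` with `[E i : F] = c` which are
not totally real are zero. Then `G` contains the one-parameter group of the action of `Z` on `M`. So
`G` contains the image of a large part of the torus of the `E i`: of the kernels of the norms to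
these subfields. In particular, if for each `i` (`RealCore`) the odd part of `E i` is irreducible,
or `E i` has a primitive core with `c` pairs and `c = 2` or all subfields `F` with `[E i : F] = c`
are totally real, and if all simple factors of `A` have complex multiplication (`Y` is injective),
then **`G` contains `MT(M)`**, for all motives `M` in the tensor category generated by `h^1(A)`.

**Part two.** Let `A` be simple with complex multiplication by a field `E` with a primitive core
with `c` pairs, and let `A` be of Weil type for all subfields `F` with `[E : F] = c` which are not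
totally real: the traces on the tangent space of the elements `D` of `F` with `D̄ = - D` are zero.
Then again **`G` contains `MT(M)`** for all `M`. (If there are such `F` then `A` has exceptional
Hodge classes, the Weil classes, and their algebraicity is not known in general. It is not used.)

So for the simple abelian varieties with complex multiplication by a field with a primitive core the
only open case is the one that `c > 2`, some subfield `F` with `[E : F] = c` is not totally real,
and the signature for it is not balanced.

**What was known.** For the product of an elliptic curve with complex multiplication and for Tate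
motives the full statement about the transcendence degree. In the library the case of unitary type
(division algebras), and for complex multiplication `CMPrimeOrTwoTransitive`: the de Rham-Betti
classes on the powers of `A`, for simple tori, if a prime number `l > g / 2` divides the order of
the Galois group (for instance `g` prime), and if `E` contains an imaginary quadratic field with a
doubly transitive group of the places; there the large parts of the theorem are for degrees smaller
than the core. New here are the cores, all motives `M` in the tensor category, groups `G` which are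
not reductive, and products with abelian varieties of the types I, II and III.

## Motives

As `h^1(A)` is dual to `h^1(A)(1)`, the motive `M` is a direct factor of a sum of motives `h^1(A) ^
{⊗ r i} (w i)`. Its Betti realization is a space of families of multilinear forms with rational
values, in `r i` variables in `H_1(A, ℚ)`, with a basis `B`. It is the image of a motivated
projector, and the realizations of motivated classes are Hodge classes and de Rham-Betti classes; so
it is stable under the Lie algebra `𝔤` of the endomorphisms of `H_1(A, ℚ)` which annihilate all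
classes that are Hodge classes and de Rham-Betti classes (`InLie`), and under the weights. The de
Rham realization has a basis which consists of combinations of products of elements of `H^1_dR(A /
ℚ̄)` with algebraic coefficients. The matrix `P` of the periods expresses it in terms of the basis
`(2 π i) ^ (w i) B` of the Betti realization (`IsMotive`).

## Proof

Let `L` be the Lie algebra of `G`, and let `𝔮` be the set of the `X` in `𝔤` whose action on `M` is
in `L` up to a multiple of the weight operator. By the theorem of Schneider and Lang `𝔮` acts
semisimply on `H_1(A, ℚ)`, with the same commutant as `𝔤` (library). A generic element `f(Y)` of the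
intersection of `𝔮` with the centre of `𝔤` has different values at all embeddings of the `E i`
(`CMCentre.separates`): the algebra generated by `𝔮` acts on the type IV part by polynomials in `Y`,
and contains `Y`. By the theorem on replicas (Chevalley) `h(Y)` acts on `M` by an element of `L` if
all relations `∑ f(x_k) = 0` between the conjugates imply `∑ h(x_k) = 0`. Some `ℚ`-linear function
`ℂ → ℚ` has different values at the `f(φ (y i))`; so we obtain a function `w` on the embeddings, odd
and injective with rational values, such that `n(s)`, the multiplicity of `s` minus the one of `-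
s`, is orthogonal to all conjugates of `w`. By sign changes one can cut `n` down to a relation which
is supported in one core. If `c` is prime, a Sylow subgroup of the stabilizer of the core contains
an element with two orbits of length `c` on the core, exchanged by the complex conjugation, and by
the irreducibility of the cyclotomic polynomial `n` is constant on these orbits; in the doubly
transitive case one averages over a stabilizer. The orbit consists of the extensions of an embedding
of a subfield `F` with `[E : F] = c`, which is not totally real, and `n` comes from `F`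
(`structure_of_separating`). So `n = 0`, or the relation holds for all `h` whose traces to `F` are
zero. In part two the components of the complex structure have this property.
-/

set_option autoImplicit false

open Module Matrix Polynomial Pool.Agent.Y102 Pool.Agent.W516.DR Pool.Agent.H204R3.GP
open NumberField Pool.Agent.H298.Core

noncomputable section

namespace Pool.Agent.Results.MP_57341d_ag.SmallCoreMotives

variable {g : ℕ} (A : AbVar g)

/-! ### Endomorphisms -/

/-- `P` is an endomorphism of `A` (up to isogeny), in terms of its action on `H_1(A, ℚ)`: it respects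
the de Rham structure. (By the theorem of Bost, which is proved in `Pool.Agent.Y102.AbVar.hodge_end`,
these are the elements of `End(A) ⊗ ℚ`.) -/
def IsEndomorphism (P : Module.End ℚ A.H1) : Prop := IsDeRhamBettiEnd QBar A.dR P

/-- The endomorphism `X` of `H_1(A, ℚ)` commutes with the endomorphisms of `A`. -/
def Commutes (X : Module.End ℚ A.H1) : Prop := ∀ Q, IsEndomorphism A Q → X * Q = Q * X

/-- The Riemann form of the polarization, on the rational homology. -/
def polarization : A.H1 →ₗ[ℚ] A.H1 →ₗ[ℚ] ℚ := A.om

/-- `X` is skew-symmetric for the polarization. -/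
def IsSkewSymmetric (X : Module.End ℚ A.H1) : Prop :=
  ∀ u v, polarization A (X u) v + polarization A u (X v) = 0

/-- `R` is an endomorphism which is skew-symmetric and central in the algebra of endomorphisms. -/
def IsCentralSkew (R : Module.End ℚ A.H1) : Prop :=
  IsEndomorphism A R ∧ IsSkewSymmetric A R ∧ ∀ Q, IsEndomorphism A Q → R * Q = Q * R

/-- The central skew-symmetric endomorphisms are polynomials in one of them, `Y`, and the
endomorphisms of `H_1(A, ℚ)` which commute with the endomorphisms of `A` commute with each other on the
image of `Y`: the simple factors of type IV have complex multiplication. -/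
structure TypeIVPart (Y : Module.End ℚ A.H1) : Prop where
  central : IsCentralSkew A Y
  generates : ∀ R, IsCentralSkew A R → R ∈ Algebra.adjoin ℚ {Y}
  commutative : ∀ X X', Commutes A X → Commutes A X' → (X * X' - X' * X) * Y = 0

/-- The minimal polynomial of `Y` is, up to the factor `T`, the product of the minimal polynomials
`p i` of the generators `y i` of the CM fields `E i`, and for every `i` some automorphism of the
complex numbers changes the sign of all roots of `p i` and fixes all roots of the `p j`, `j ≠ i`. -/
structure HasFields (Y : Module.End ℚ A.H1) {k : ℕ} (p : Fin k → ℚ[X]) (E : Fin k → Type)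
    [∀ i, Field (E i)] [∀ i, NumberField (E i)] [∀ i, IsCMField (E i)] (y : ∀ i, E i) : Prop where
  defines : ∀ i, Defines (p i) (E i) (y i)
  factor : ∀ i, p i ∣ minpoly ℚ Y
  minpoly_dvd : minpoly ℚ Y ∣ X * ∏ i, p i
  independent : ∀ i, ∃ σ : ℂ ≃+* ℂ, (∀ z, aeval z (p i) = 0 → σ z = -z) ∧
    ∀ j, j ≠ i → ∀ z, aeval z (p j) = 0 → σ z = z

/-- `A` is simple with complex multiplication by the field `ℚ(P)` of degree `2 g`: the algebra of
endomorphisms is generated by `P`, and `P` is skew-symmetric for the polarization (the Rosati
involution is the complex conjugation). -/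
structure HasCM (P : Module.End ℚ A.H1) : Prop where
  endomorphism : IsEndomorphism A P
  skew : IsSkewSymmetric A P
  generates : ∀ Q, IsEndomorphism A Q → Q ∈ Algebra.adjoin ℚ {P}
  simple : ∀ Q, IsEndomorphism A Q → Q ≠ 0 → Function.Injective Q
  degree : (minpoly ℚ P).natDegree = 2 * g

/-- `M` is the action of `D` on the tangent space. -/
def IsTangentAction (D : Module.End ℚ A.H1) (M : (Fin g → ℂ) →ₗ[ℂ] (Fin g → ℂ)) : Prop :=
  ∀ w, M (A.per w) = A.per (D w)

/-- `A` is of Weil type for the subfields `F` of `E` with `[E : F] = c` which are not totally real:
the trace on the tangent space of the elements `q (y)` of `F`, `q` an odd polynomial, is zero. -/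
def IsOfWeilType {E : Type} [Field E] [NumberField E] (y : E) (P : Module.End ℚ A.H1)
    (c : ℕ) : Prop :=
  ∀ F : IntermediateField ℚ E, finrank F E = c → ¬ IsTotallyReal F → ∀ q : ℚ[X],
    aeval y q ∈ F → q.comp (-X) = -q → ∀ M, IsTangentAction A (aeval P q) M →
      LinearMap.trace ℂ (Fin g → ℂ) M = 0

/-! ### The Lie algebra -/

/-- The multilinear forms in `2m` variables in the rational homology. -/
abbrev Form (m : ℕ) : Type := MultilinearMap ℚ (fun _ : Fin m × Fin 2 => A.H1) ℚ

/-- `φ` is a de Rham-Betti class in `H^1(A) ^ {⊗ 2m} (m)`. -/
def IsDRB {m : ℕ} (φ : Form A m) : Prop :=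
  IsDeRhamBettiForm QBar A.dR (2 * Real.pi * Complex.I) m φ

/-- `φ` is a Hodge class in `H^1(A) ^ {⊗ 2m} (m)`. -/
def IsHodge {m : ℕ} (φ : Form A m) : Prop := IsHodgeTensor (A.per : A.H1 →+ (Fin g → ℂ)) φ

/-- The endomorphism `X` annihilates the form `φ` (as a derivation). -/
def Annihilates {m : ℕ} (X : Module.End ℚ A.H1) (φ : Form A m) : Prop :=
  ∀ v, ∑ k, φ (Function.update v k (X (v k))) = 0

/-- `X` is in the Lie algebra `𝔤`: it annihilates all classes that are Hodge classes and
de Rham-Betti classes. -/
def InLie (X : Module.End ℚ A.H1) : Prop :=
  ∀ (m : ℕ) (φ : Form A m), IsHodge A φ → IsDRB A φ → Annihilates A X φ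

/-! ### Motives -/

variable {s n : ℕ} (r : Fin s → ℕ) (w : Fin s → ℤ)

/-- The Betti realization of the sum of the motives `h^1(A) ^ {⊗ r i} (w i)`: families of multilinear
forms in `r i` variables in the rational homology. -/
abbrev Tensors : Type := ∀ i : Fin s, MultilinearMap ℚ (fun _ : Fin (r i) => A.H1) ℚ

variable {A r}

/-- `M` is the matrix of the action of the endomorphism `X` of the rational homology of `A` (as a
derivation) on the space of tensors with the basis `B`. -/
def IsLieMatrix (B : Fin n → Tensors A r) (X : Module.End ℚ A.H1)
    (M : Matrix (Fin n) (Fin n) ℚ) : Prop :=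
  ∀ a i v, ∑ k, B a i (Function.update v k (X (v k))) = ∑ b, M b a * B b i v

/-- The subspace with the basis `B` is the Betti realization of a direct factor `M` of the sum of the
motives `h^1(A) ^ {⊗ r i} (w i)`, and `P` is the matrix of the periods of `M` for the basis `B` and for
some basis of the de Rham realization of `M` over `ℚ̄`. -/
structure IsMotive (B : Fin n → Tensors A r) (P : Matrix (Fin n) (Fin n) ℂ) : Prop where
  /-- `B` is a basis of a subspace -/
  basis : LinearIndependent ℚ B
  /-- the subspace is stable under `𝔤` -/
  lie : ∀ X, InLie A X → ∃ M : Matrix (Fin n) (Fin n) ℚ, IsLieMatrix B X M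
  /-- the subspace is stable under the weights -/
  weight : ∃ M : Matrix (Fin n) (Fin n) ℚ, ∀ a i v,
    ((r i : ℚ) - 2 * w i) * B a i v = ∑ b, M b a * B b i v
  /-- the de Rham realization has a basis of elements with algebraic coefficients in terms of the
  tensor products of the elements of the basis of `H^1_dR(A / ℚ̄)` -/
  deRham : ∃ c : Fin n → ∀ i : Fin s, (Fin (r i) → Fin g ⊕ Fin g) → ℂ,
    (∀ a i J, IsAlgebraic ℚ (c a i J)) ∧ ∀ a i (v : Fin (r i) → A.H1),
      ∑ J, c a i J * ∏ k, A.dR (J k) (v k) =
        (2 * Real.pi * Complex.I) ^ (w i) * ∑ b, P b a * (B b i v : ℂ)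
  /-- the matrix of the periods is invertible -/
  det : P.det ≠ 0

/-! ### Algebraic groups, torsors and the Mumford-Tate group -/

/-- A subgroup of `GL_R(ℂ)` defined by polynomials with rational coefficients. -/
def IsAlgebraicSubgroup {R : Type} [Fintype R] [DecidableEq R] (G : Subgroup (GL R ℂ)) : Prop :=
  ∃ I : Set (MvPolynomial (R × R) ℚ), ∀ x : GL R ℂ, x ∈ G ↔
    ∀ p ∈ I, MvPolynomial.aeval (fun b : R × R => (x : Matrix R R ℂ) b.1 b.2) p = 0

/-- The torsor `G · T⁻¹` of `G`: the matrices `F` such that `F T` is an element of `G`. It is
defined over `ℚ̄` if `T` is a matrix with algebraic entries. -/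
def torsor (G : Subgroup (GL (Fin n) ℂ)) (T : Matrix (Fin n) (Fin n) ℂ) :
    Set (Matrix (Fin n) (Fin n) ℂ) :=
  {F | ∃ x ∈ G, (x : Matrix (Fin n) (Fin n) ℂ) = F * T}

variable (A) in
/-- The Hodge structure of `H^1(A)`: the complex number `z` acts on `H_1(A, ℝ) = ℂ ^ g` by
multiplication, and on `H^1(A, ℝ)` by the transposed map, here in the basis of `H^1(A, ℚ)` which is
dual to the basis of the lattice. -/
def hodge (z : ℂ) : Matrix (Fin (2 * g)) (Fin (2 * g)) ℂ :=
  Matrix.of fun i j => ((A.lam.repr (z • A.lam i) j : ℝ) : ℂ)

/-- `R` is the matrix of the action of the complex number `z` on `M`, in the Hodge structure given by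
those of `H^1(A)` and of the Tate motives (`z` acts on `ℚ(1)` by `(z z̄)⁻¹`). -/
def IsHodgeMatrix (B : Fin n → Tensors A r) (z : ℂ) (R : Matrix (Fin n) (Fin n) ℂ) : Prop :=
  ∀ a i (j : Fin (r i) → Fin (2 * g)),
    ∑ j' : Fin (r i) → Fin (2 * g), (∏ k, hodge A z (j k) (j' k)) *
        (B a i (fun k => Pi.single (j' k) 1) : ℂ) =
      (z * (starRingEnd ℂ) z) ^ (w i) * ∑ b, R b a * (B b i (fun k => Pi.single (j k) 1) : ℂ)

/-- The Mumford-Tate group of `M`: the smallest algebraic group over `ℚ` which contains the image of
the Deligne torus. -/
def mumfordTate (B : Fin n → Tensors A r) : Subgroup (GL (Fin n) ℂ) :=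
  sInf {G | IsAlgebraicSubgroup G ∧ ∀ z : ℂ, z ≠ 0 → ∃ x ∈ G,
    IsHodgeMatrix w B z (x : Matrix (Fin n) (Fin n) ℂ)}

/-- The group `G` contains `exp (t M)` for all complex numbers `t`. -/
def ContainsExp (G : Subgroup (GL (Fin n) ℂ)) (M : Matrix (Fin n) (Fin n) ℚ) : Prop :=
  ∀ t : ℂ, ∃ x ∈ G, (x : Matrix (Fin n) (Fin n) ℂ) =
    NormedSpace.exp (t • M.map fun q => (q : ℂ))

/-! ### Translations -/

theorem mem_ZA (R : Module.End ℚ A.H1) : R ∈ A.ZA ↔ IsCentralSkew A R := by
  constructor
  · rintro ⟨h1, h2, h3⟩
    exact ⟨A.mem_EA.1 h1, h2, fun Q hQ => h3 Q (A.mem_EA.2 hQ)⟩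
  · rintro ⟨h1, h2, h3⟩
    exact ⟨A.mem_EA.2 h1, h2, fun Q hQ => h3 Q (A.mem_EA.1 hQ)⟩

theorem TypeIVPart.centre {Y : Module.End ℚ A.H1} (h : TypeIVPart A Y) : CMCentre A Y where
  mem := (mem_ZA Y).2 h.central
  gen := fun R hR => h.generates R ((mem_ZA R).1 hR)
  comm := fun X X' hX hX' => h.commutative X X' (fun Q hQ => hX Q (A.mem_EA.2 hQ))
    fun Q hQ => hX' Q (A.mem_EA.2 hQ)

theorem HasFields.fields {Y : Module.End ℚ A.H1} {k : ℕ} {p : Fin k → ℚ[X]} {E : Fin k → Type}
    [∀ i, Field (E i)] [∀ i, NumberField (E i)] [∀ i, IsCMField (E i)] {y : ∀ i, E i}
    (h : HasFields A Y p E y) : Fields (minpoly ℚ Y) p E y :=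
  ⟨h.defines, h.factor, h.minpoly_dvd, h.independent⟩

theorem HasCM.simpleCM {P : Module.End ℚ A.H1} (h : HasCM A P) : SimpleCM A P where
  mem := A.mem_EA.2 h.endomorphism
  skew := h.skew
  gen := fun Q hQ => h.generates Q (A.mem_EA.1 hQ)
  simple := fun Q hQ => h.simple Q (A.mem_EA.1 hQ)
  degree := h.degree

theorem rel_iff (B : Fin n → Tensors A r) (X : Module.End ℚ A.H1)
    (M : Matrix (Fin n) (Fin n) ℚ) : N208.AM.Rel B X M ↔ IsLieMatrix B X M := by
  constructor
  · intro h a i v
    have h1 := congrArg (fun φ : MultilinearMap ℚ (fun _ : Fin (r i) => A.H1) ℚ => φ v) (h a i)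
    simp only [N208.AM.dact_apply, _root_.sum_apply, _root_.smul_apply, smul_eq_mul] at h1
    exact h1
  · intro h a i
    refine MultilinearMap.ext fun v => ?_
    rw [N208.AM.dact_apply, _root_.sum_apply, h a i v]
    rfl

theorem IsMotive.mot {B : Fin n → Tensors A r} {P : Matrix (Fin n) (Fin n) ℂ}
    (hM : IsMotive w B P) : N208.AM.Mot w B P ∧ ∃ Wt, N208.AM.WRel w B Wt := by
  have hwt : ∃ M, N208.AM.WRel w B M := by
    obtain ⟨M, h⟩ := hM.weight
    refine ⟨M, fun a i => MultilinearMap.ext fun v => ?_⟩
    rw [_root_.smul_apply, _root_.sum_apply, smul_eq_mul, h a i v]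
    rfl
  refine ⟨⟨hM.basis, fun X hX => ?_, hwt, hM.det, hM.deRham⟩, hwt⟩
  obtain ⟨M, h⟩ := hM.lie X hX
  exact ⟨M, (rel_iff B X M).2 h⟩

theorem pt {P : Matrix (Fin n) (Fin n) ℂ} {G : Subgroup (GL (Fin n) ℂ)}
    (hG : IsAlgebraicSubgroup G) {T : Matrix (Fin n) (Fin n) ℂ}
    (hT : ∀ i j, IsAlgebraic ℚ (T i j)) (hP : P ∈ torsor G T) :
    N208.AM.PtM P {M | ∃ x ∈ G, (x : Matrix (Fin n) (Fin n) ℂ) = M} := by
  have hdet : T.det ≠ 0 := by
    obtain ⟨x, -, hxT⟩ := hP
    intro h0
    have h1 : (x : Matrix (Fin n) (Fin n) ℂ).det = 0 := by
      rw [hxT, Matrix.det_mul, h0, mul_zero]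
    exact (Matrix.GeneralLinearGroup.det x).ne_zero h1
  obtain ⟨T', h1, h2⟩ := Pool.Agent.R917.alg_inv hT hdet
  obtain ⟨x, hx, hxT⟩ := hP
  exact ⟨Pool.Agent.R917.algGrp_of hG, T, T', h1, h2, x, hx, hxT⟩

theorem mumfordTate_le {B : Fin n → Tensors A r} {G : Subgroup (GL (Fin n) ℂ)}
    (hG : IsAlgebraicSubgroup G) (h : ∀ z : ℂ, z ≠ 0 → ∃ K : Matrix (Fin n) (Fin n) ℂ,
      (∃ x ∈ G, (x : Matrix (Fin n) (Fin n) ℂ) = K) ∧ N208.AM.HRel w B z K) :
    mumfordTate w B ≤ G := by
  have hb : ∀ j : Fin (2 * g), A.bas j = Pi.single j 1 := fun j => by
    unfold AbVar.bas
    rw [Pi.basisFun_apply]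
  refine sInf_le ⟨hG, fun u hu => ?_⟩
  obtain ⟨K, ⟨x, hx, hxK⟩, h4⟩ := h u hu
  refine ⟨x, hx, ?_⟩
  rw [hxK]
  intro a i j
  have h1 := h4 a i j
  simp only [hb] at h1
  exact h1

/-- **The period torsors of motives of CM type**, for fields with irreducible odd part or primitive
core. -/
theorem result {g s n : ℕ} (A : AbVar g) (r : Fin s → ℕ) (w : Fin s → ℤ)
    (B : Fin n → Tensors A r) (P : Matrix (Fin n) (Fin n) ℂ) (hM : IsMotive w B P)
    (G : Subgroup (GL (Fin n) ℂ)) (hG : IsAlgebraicSubgroup G) (T : Matrix (Fin n) (Fin n) ℂ)
    (hT : ∀ i j, IsAlgebraic ℚ (T i j)) (hP : P ∈ torsor G T) :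
    -- 1
    (∀ (Y : Module.End ℚ A.H1) {k : ℕ} (p : Fin k → ℚ[X]) (E : Fin k → Type)
      [∀ i, Field (E i)] [∀ i, NumberField (E i)] [∀ i, IsCMField (E i)] (y : ∀ i, E i),
      TypeIVPart A Y → HasFields A Y p E y →
      (∀ h : ℚ[X], h.comp (-X) = -h → (∀ i, TraceCondition (E i) (aeval (y i) h)) →
        ∀ M : Matrix (Fin n) (Fin n) ℚ, IsLieMatrix B (aeval Y h) M → ContainsExp G M) ∧
      (Function.Injective Y → (∀ i, RealCore (E i)) → mumfordTate w B ≤ G)) ∧
    -- 2
    (∀ (D : Module.End ℚ A.H1) (E : Type) [Field E] [NumberField E] [IsCMField E] (y : E) (c : ℕ),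
      HasCM A D → Defines (minpoly ℚ D) E y → PrimitiveCore E c → IsOfWeilType A y D c →
      mumfordTate w B ≤ G) ∧
    -- 3
    AllFacts := by
  obtain ⟨hM', Wt, hW⟩ := hM.mot
  have hH := pt hG hT hP
  obtain ⟨N, hN, -⟩ := N208.AM.exists_J hM'
  refine ⟨?_, ?_, allFacts_hold⟩
  · rintro Y k p E _ _ _ y hY hE
    refine ⟨fun h hh hC M hMZ t => ?_, fun hinj hC => ?_⟩
    · have hZA : aeval Y h ∈ A.ZA := by
        have h1 := hY.centre.mem
        refine ⟨A.aeval_mem h1.1 h, ?_, fun Q hQ => A.aeval_comm (h1.2.2 Q hQ) h⟩
        exact Pool.Agent.W5h86.CC.skew_odd A h1.2.1 hh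
      have h2 := mem_core hY.centre hE.fields hM' hW hH hZA hh rfl hC ((rel_iff B _ M).2 hMZ)
      exact Pool.Agent.R917.exp_mem hH.grp fun d => (h2 d).smul t
    · exact mumfordTate_le w hG fun z hz => ⟨_, mt_cm hY.centre hinj hE.fields hC hM' hW hH hN hz⟩
  · rintro D E _ _ _ y c hD hy hC hweil
    exact mumfordTate_le w hG fun z hz => ⟨_, mt_weil hD.simpleCM hy hC hweil hM' hW hH hN hz⟩

end Pool.Agent.Results.MP_57341d_ag.SmallCoreMotives
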